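import Mathlib

namespace Pool.Agent.H.MP_dee721_co

open Finset

def enc (z : Fin 6 → Bool) : ℕ :=
  (z 0).toNat + 2 * (z 1).toNat + 4 * (z 2).toNat + 8 * (z 3).toNat + 16 * (z 4).toNat +
    32 * (z 5).toNat

def L (t : Bool) : List ℕ :=
  if t then [0, 3, 9, 14, 10, 20, 19, 13, 1, 2, 4, 5, 6, 7, 8, 15] else [0, 30, 25, 7, 45, 42, 51, 52]

def inP (t : Bool) (z : Fin 6 → Bool) : Bool := (L t).contains (enc z)

def dd (z z' : Fin 6 → Bool) : ℕ :=
  (xor (z 0) (z' 0)).toNat + (xor (z 1) (z' 1)).toNat + (xor (z 2) (z' 2)).toNat +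
    (xor (z 3) (z' 3)).toNat + (xor (z 4) (z' 4)).toNat + (xor (z 5) (z' 5)).toNat

lemma dist_sum {n : ℕ} (x y : Fin n → Bool) :
    hammingDist x y = ∑ i, (xor (x i) (y i)).toNat := by
  unfold hammingDist
  rw [card_filter]
  refine sum_congr rfl fun i _ => ?_
  cases x i <;> cases y i <;> simp

lemma dd_eq (z z' : Fin 6 → Bool) : hammingDist z z' = dd z z' := by
  rw [dist_sum, Fin.sum_univ_six]; rfl

lemma P_diam : ∀ t t' : Bool, ∀ z z' : Fin 6 → Bool, inP t z = true → inP t' z' = true →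
    dd z z' ≤ 5 ∧ (t = t' → dd z z' ≤ 4) := by decide +kernel

lemma P_far : ∀ t : Bool, ∀ z : Fin 6 → Bool, ∃ z' : Fin 6 → Bool, inP t z' = true ∧
    4 ≤ dd z z' ∧ (inP t z = true ∨ 5 ≤ dd z z') := by decide +kernel

lemma P_card : ∀ t : Bool, ∑ z : Fin 6 → Bool, (if inP t z = true then 1 else 0) =
    8 + if t = true then 8 else 0 := by decide +kernel

/-- a point of the cube of dimension `6 + (1 + (s + u))` from its four blocks -/
def mk {s u : ℕ} (z : Fin 6 → Bool) (b : Bool) (y : Fin s → Bool) (w : Fin u → Bool) :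
    Fin (6 + (1 + (s + u))) → Bool :=
  Fin.append z (Fin.append (fun _ : Fin 1 => b) (Fin.append y w))

lemma dist_append {m n : ℕ} (a a' : Fin m → Bool) (b b' : Fin n → Bool) :
    hammingDist (Fin.append a b) (Fin.append a' b') = hammingDist a a' + hammingDist b b' := by
  simp only [dist_sum, Fin.sum_univ_add, Fin.append_left, Fin.append_right]

lemma dist_mk {s u : ℕ} (z z' : Fin 6 → Bool) (b b' : Bool) (y y' : Fin s → Bool)
    (w w' : Fin u → Bool) :
    hammingDist (mk z b y w) (mk z' b' y' w') =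
      dd z z' + (xor b b').toNat + hammingDist y y' + hammingDist w w' := by
  unfold mk
  rw [dist_append, dist_append, dist_append, dd_eq, dist_sum (fun _ : Fin 1 => b)]
  simp only [Fin.sum_univ_one]; ring

lemma exists_append {m n : ℕ} (x : Fin (m + n) → Bool) : ∃ a b, x = Fin.append a b :=
  ⟨fun i => x (Fin.castAdd n i), fun i => x (Fin.natAdd m i), (Fin.append_castAdd_natAdd).symm⟩

lemma exists_mk {s u : ℕ} (x : Fin (6 + (1 + (s + u))) → Bool) :
    ∃ z b y w, x = mk z b y w := by
  obtain ⟨z, x1, rfl⟩ := exists_append x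
  obtain ⟨b, x2, rfl⟩ := exists_append x1
  obtain ⟨y, w, rfl⟩ := exists_append x2
  refine ⟨z, b 0, y, w, ?_⟩
  unfold mk
  congr 2
  funext i
  rw [Subsingleton.elim i 0]

/-- the embedding of parameter triples -/
def emb (s u : ℕ) (p : (Fin s → Bool) × Bool × (Fin 6 → Bool)) : Fin (6 + (1 + (s + u))) → Bool :=
  mk p.2.2 p.2.1 (fun i => xor (p.1 i) p.2.1) (fun _ => true)

lemma dd_zero : ∀ z z' : Fin 6 → Bool, dd z z' = 0 → z = z' := fun z z' h => by
  rw [← dd_eq] at h; exact hammingDist_eq_zero.1 h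

lemma emb_inj (s u : ℕ) : Function.Injective (emb s u) := by
  rintro ⟨v, b, z⟩ ⟨v', b', z'⟩ h
  have h0 : hammingDist (emb s u (v, b, z)) (emb s u (v', b', z')) = 0 := by
    rw [h, hammingDist_self]
  unfold emb at h0
  rw [dist_mk] at h0
  dsimp only at h0
  have h1 : z = z' := dd_zero _ _ (by omega)
  have h2 : b = b' := by
    have : (xor b b').toNat = 0 := by omega
    revert this; cases b <;> cases b' <;> simp
  subst h2
  have h3 : (fun i => xor (v i) b) = fun i => xor (v' i) b := hammingDist_eq_zero.1 (by omega)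
  have h4 : v = v' := by
    funext i
    have := congrFun h3 i
    simpa using this
  rw [h1, h4]

def dom {s : ℕ} (T : Finset (Fin s → Bool)) : Finset ((Fin s → Bool) × Bool × (Fin 6 → Bool)) :=
  univ.filter fun p => inP (decide (p.1 ∈ T)) p.2.2 = true

def sig {s : ℕ} (u : ℕ) (T : Finset (Fin s → Bool)) : Finset (Fin (6 + (1 + (s + u))) → Bool) :=
  (dom T).image (emb s u)

lemma card_sig {s : ℕ} (u : ℕ) (T : Finset (Fin s → Bool)) :
    (sig u T).card = 16 * 2 ^ s + 16 * T.card := by
  unfold sig dom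
  rw [card_image_of_injective _ (emb_inj s u), card_filter, Fintype.sum_prod_type]
  have h1 : ∀ v : Fin s → Bool, (∑ q : Bool × (Fin 6 → Bool),
      if inP (decide (v ∈ T)) q.2 = true then 1 else 0) = 16 + if v ∈ T then 16 else 0 := by
    intro v
    rw [Fintype.sum_prod_type, Fintype.sum_bool]
    have := P_card (decide (v ∈ T))
    dsimp only
    rw [this]
    by_cases h : v ∈ T <;> simp [h]
  rw [sum_congr rfl fun v _ => h1 v, sum_add_distrib, ← sum_filter]
  simp only [filter_mem_eq_inter, univ_inter, sum_const, smul_eq_mul, card_univ,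
    Fintype.card_pi, prod_const, Fintype.card_fin, Fintype.card_bool]
  ring

lemma mem_sig {s u : ℕ} {T : Finset (Fin s → Bool)} {x : Fin (6 + (1 + (s + u))) → Bool} :
    x ∈ sig u T ↔ ∃ v b z, inP (decide (v ∈ T)) z = true ∧ emb s u (v, b, z) = x := by
  unfold sig dom
  simp only [mem_image, mem_filter, mem_univ, true_and, Prod.exists]

lemma dist_le_s {s : ℕ} (y y' : Fin s → Bool) : hammingDist y y' ≤ s := by
  simpa using hammingDist_le_card_fintype (x := y) (y := y')

lemma dist_opp {s : ℕ} (y y' : Fin s → Bool) (h : ∀ i, y' i = !y i) : hammingDist y y' = s := by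
  rw [dist_sum]
  simp [h]

lemma dist_full {s : ℕ} (y y' : Fin s → Bool) (h : hammingDist y y' = s) (i : Fin s) :
    y i ≠ y' i := by
  unfold hammingDist at h
  have h2 : (univ.filter fun i => y i ≠ y' i) = univ :=
    eq_univ_of_card _ (by rw [Fintype.card_fin]; exact h)
  have := mem_univ i
  rw [← h2, mem_filter] at this
  exact this.2

lemma sig_diam {s u : ℕ} (T : Finset (Fin s → Bool)) :
    ∀ x ∈ sig u T, ∀ y ∈ sig u T, hammingDist x y ≤ s + 5 := by
  intro x hx y hy
  obtain ⟨v, b, z, h, rfl⟩ := mem_sig.1 hx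
  obtain ⟨v', b', z', h', rfl⟩ := mem_sig.1 hy
  unfold emb
  rw [dist_mk, hammingDist_self]
  dsimp only
  obtain ⟨h5, h4⟩ := P_diam _ _ _ _ h h'
  have hs := dist_le_s (fun i => xor (v i) b) (fun i => xor (v' i) b')
  have hb : (xor b b').toNat ≤ 1 := Bool.toNat_le _
  by_cases c : hammingDist (fun i => xor (v i) b) (fun i => xor (v' i) b') = s ∧
      (xor b b').toNat = 1
  · have hv : v = v' := by
      funext i
      have h1 := dist_full _ _ c.1 i
      have h2 := c.2
      revert h1 h2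
      cases v i <;> cases v' i <;> cases b <;> cases b' <;> simp
    have := h4 (by rw [hv])
    omega
  · omega

lemma sig_far {s u : ℕ} (T : Finset (Fin s → Bool)) (x : Fin (6 + (1 + (s + u))) → Bool) :
    ∃ y ∈ sig u T, s + 5 ≤ hammingDist x y ∧ (x ∈ sig u T ∨ s + 6 ≤ hammingDist x y) := by
  obtain ⟨z, b, y, w, rfl⟩ := exists_mk x
  obtain ⟨z', h1, h2, h3⟩ := P_far (decide ((fun i => xor (y i) b) ∈ T)) z
  have hd : hammingDist (mk z b y w) (emb s u (fun i => xor (y i) b, !b, z')) =
      dd z z' + 1 + s + hammingDist w (fun _ => true) := by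
    unfold emb
    rw [dist_mk, dist_opp y]
    · cases b <;> simp
    · intro i; dsimp only; cases y i <;> cases b <;> rfl
  refine ⟨_, mem_sig.2 ⟨fun i => xor (y i) b, !b, z', h1, rfl⟩, by omega, ?_⟩
  by_cases hw : hammingDist w (fun _ => true) = 0
  · rcases h3 with h3 | h3
    · left
      refine mem_sig.2 ⟨fun i => xor (y i) b, b, z, h3, ?_⟩
      unfold emb
      rw [hammingDist_eq_zero.1 hw]
      simp
    · right; omega
  · right; omega

end Pool.Agent.H.MP_dee721_co
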